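import Pool.Agent.H54.TP.Estimate

/-!
MP_c12a31_an: every totally nonnegative kernel on infinite `X, Y ⊆ ℝ` is a limit of totally
positive kernels at its points of continuity.
-/

set_option autoImplicit false

namespace Pool.Agent.Results.MP_c12a31_an.TPApproximation

open Pool.Agent.H54.TP Filter Topology Finset

theorem result (X Y : Set ℝ) (hX : X.Infinite) (hY : Y.Infinite) (K : X → Y → ℝ)
    (hK : IsTN K) :
    ∃ Km : ℕ → X → Y → ℝ, (∀ m, IsTP (Km m)) ∧
      ∀ (x : X) (y : Y), ContinuousAt (fun p : X × Y => K p.1 p.2) (x, y) →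
        Tendsto (fun m => Km m x y) atTop (𝓝 (K x y)) := by
  obtain ⟨ξ, hξ, hξd⟩ := exists_dense_injective hX
  obtain ⟨η, hη, hηd⟩ := exists_dense_injective hY
  let M : ℕ → ℝ := fun m => 1 + ∑ i ∈ range (m + 1), ∑ j ∈ range (m + 1), |K (ξ i) (η j)|
  let c : ℕ → ℝ := fun m => (m + 1) * M m
  have hM1 : ∀ m, 1 ≤ M m := by
    intro m
    have : 0 ≤ ∑ i ∈ range (m + 1), ∑ j ∈ range (m + 1), |K (ξ i) (η j)| :=
      Finset.sum_nonneg fun i _ => Finset.sum_nonneg fun j _ => abs_nonneg _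
    simp only [M]
    linarith
  have hcm : ∀ m : ℕ, (m : ℝ) + 1 ≤ c m := by
    intro m
    have h1 := hM1 m
    have h2 : (0 : ℝ) ≤ (m : ℝ) + 1 := by positivity
    simp only [c]
    nlinarith
  have hc : ∀ m, 0 < c m := fun m => lt_of_lt_of_le (by positivity) (hcm m)
  have hMc : ∀ m : ℕ, ((m + 1 : ℕ) : ℝ) * M m = c m := by
    intro m
    simp only [c]
    push_cast
    ring
  have hct : Tendsto c atTop atTop := by
    refine tendsto_atTop_mono hcm ?_
    exact tendsto_atTop_add_const_right _ _ tendsto_natCast_atTop_atTop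
  have hstage : ∀ m : ℕ, ∃ Km : X → Y → ℝ, IsTP Km ∧ ∀ (x : X) (y : Y),
      |Km x y - (∑ i : Fin (m + 1), ∑ j : Fin (m + 1), gau (c m) x (ξ i) * K (ξ i) (η j) *
        gau (c m) y (η j)) / (wt (c m) (m + 1) ξ x * wt (c m) (m + 1) η y)| ≤
        2 * Real.exp (-(c m * m)) / (wt (c m) (m + 1) ξ x * wt (c m) (m + 1) η y) := fun m =>
    exists_stage K hK ξ hξ η hη (m + 1) (Nat.succ_pos m) (c m) (Real.exp (-(c m * m))) (hc m)
      (Real.exp_pos _)
  choose Km hKm hKm' using hstage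
  refine ⟨Km, hKm, fun x y hcont => ?_⟩
  rw [Metric.tendsto_atTop]
  intro ε hε
  -- continuity
  obtain ⟨δ, hδ, hδ'⟩ := Metric.continuousAt_iff.mp hcont (ε / 4) (by positivity)
  have hnear : ∀ (x' : X) (y' : Y), |(x : ℝ) - x'| < δ → |(y : ℝ) - y'| < δ →
      |K x' y' - K x y| ≤ ε / 4 := by
    intro x' y' hx' hy'
    have h1 : dist ((x', y') : X × Y) (x, y) < δ := by
      rw [Prod.dist_eq]
      refine max_lt ?_ ?_
      · rw [Subtype.dist_eq, Real.dist_eq, abs_sub_comm]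
        exact hx'
      · rw [Subtype.dist_eq, Real.dist_eq, abs_sub_comm]
        exact hy'
    have h2 := hδ' h1
    rw [Real.dist_eq] at h2
    exact h2.le
  -- density
  obtain ⟨i0, hi0⟩ : ∃ i, |(x : ℝ) - ξ i| < δ / 2 := by
    obtain ⟨i, hi⟩ := Metric.denseRange_iff.mp hξd x (δ / 2) (by positivity)
    exact ⟨i, by rwa [Subtype.dist_eq, Real.dist_eq] at hi⟩
  obtain ⟨j0, hj0⟩ : ∃ j, |(y : ℝ) - η j| < δ / 2 := by
    obtain ⟨j, hj⟩ := Metric.denseRange_iff.mp hηd y (δ / 2) (by positivity)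
    exact ⟨j, by rwa [Subtype.dist_eq, Real.dist_eq] at hj⟩
  -- asymptotics
  have has1 : Tendsto (fun t : ℝ => 2 * (1 + |K x y|) * (t * Real.exp (-(3 / 4 * δ ^ 2 * t))))
      atTop (𝓝 0) := by
    have h1 : Tendsto (fun t : ℝ => t ^ (1 : ℝ) * Real.exp (-(3 / 4 * δ ^ 2) * t)) atTop
        (𝓝 0) := tendsto_rpow_mul_exp_neg_mul_atTop_nhds_zero 1 _ (by positivity)
    have h2 := h1.const_mul (2 * (1 + |K x y|))
    rw [mul_zero] at h2
    refine h2.congr fun t => ?_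
    rw [Real.rpow_one, neg_mul]
  have has2 : Tendsto (fun t : ℝ => 2 * Real.exp (-t)) atTop (𝓝 0) := by
    have := Real.tendsto_exp_neg_atTop_nhds_zero.const_mul (2 : ℝ)
    rwa [mul_zero] at this
  have hev1 := (has1.comp hct).eventually (gt_mem_nhds (show (0 : ℝ) < ε / 4 by positivity))
  have hev2 := (has2.comp hct).eventually (gt_mem_nhds (show (0 : ℝ) < ε / 4 by positivity))
  have hev3 : ∀ᶠ m : ℕ in atTop, ((x : ℝ) - ξ 0) ^ 2 + ((y : ℝ) - η 0) ^ 2 + 1 ≤ (m : ℝ) :=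
    tendsto_natCast_atTop_atTop.eventually_ge_atTop _
  have hev4 : ∀ᶠ m : ℕ in atTop, max i0 j0 ≤ m := eventually_ge_atTop _
  obtain ⟨m0, hm0⟩ := Filter.eventually_atTop.mp (hev1.and (hev2.and (hev3.and hev4)))
  refine ⟨m0, fun m hm => ?_⟩
  obtain ⟨h1, h2, h3, h4⟩ := hm0 m hm
  simp only [Function.comp_apply] at h1 h2
  have hi0m : i0 < m + 1 := Nat.lt_succ_of_le ((le_max_left _ _).trans h4)
  have hj0m : j0 < m + 1 := Nat.lt_succ_of_le ((le_max_right _ _).trans h4)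
  have hB : ∀ i j, i < m + 1 → j < m + 1 → |K (ξ i) (η j) - K x y| ≤ M m + |K x y| := by
    intro i j hi hj
    have h5 : |K (ξ i) (η j)| ≤ M m := by
      have h6 : |K (ξ i) (η j)| ≤ ∑ j ∈ range (m + 1), |K (ξ i) (η j)| :=
        Finset.single_le_sum (f := fun j => |K (ξ i) (η j)|) (fun _ _ => abs_nonneg _)
          (Finset.mem_range.mpr hj)
      have h7 : ∑ j ∈ range (m + 1), |K (ξ i) (η j)| ≤
          ∑ i ∈ range (m + 1), ∑ j ∈ range (m + 1), |K (ξ i) (η j)| :=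
        Finset.single_le_sum (f := fun i => ∑ j ∈ range (m + 1), |K (ξ i) (η j)|)
          (fun _ _ => Finset.sum_nonneg fun _ _ => abs_nonneg _) (Finset.mem_range.mpr hi)
      simp only [M]
      linarith
    calc |K (ξ i) (η j) - K x y| ≤ |K (ξ i) (η j)| + |K x y| := abs_sub _ _
      _ ≤ M m + |K x y| := by linarith
  have h5 := main_estimate K ξ η (m + 1) (c m) δ (ε / 4) (M m + |K x y|) x y (hc m) hδ
    (by positivity) hB hnear ⟨i0, hi0m, hi0⟩ ⟨j0, hj0m, hj0⟩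
  have h6 := tail_estimate ξ η (m + 1) (Nat.succ_pos m) (c m) m x y (hc m) h3
  have h7 := hKm' m x y
  have h8 : 2 * ((M m + |K x y|) * ((m + 1 : ℕ) : ℝ) * Real.exp (-(3 / 4 * δ ^ 2 * c m))) ≤
      2 * (1 + |K x y|) * (c m * Real.exp (-(3 / 4 * δ ^ 2 * c m))) := by
    have h9 : (M m + |K x y|) * ((m + 1 : ℕ) : ℝ) ≤ (1 + |K x y|) * c m := by
      rw [← hMc m]
      have h10 := hM1 m
      have h11 : (0 : ℝ) ≤ ((m + 1 : ℕ) : ℝ) := Nat.cast_nonneg _
      have h12 : (0 : ℝ) ≤ |K x y| := abs_nonneg _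
      nlinarith [mul_nonneg (mul_nonneg h12 h11) (sub_nonneg.mpr h10)]
    have h13 : 0 < Real.exp (-(3 / 4 * δ ^ 2 * c m)) := Real.exp_pos _
    nlinarith [mul_le_mul_of_nonneg_right h9 h13.le]
  rw [Real.dist_eq]
  calc |Km m x y - K x y| ≤ |Km m x y - (∑ i : Fin (m + 1), ∑ j : Fin (m + 1),
        gau (c m) x (ξ i) * K (ξ i) (η j) * gau (c m) y (η j)) /
          (wt (c m) (m + 1) ξ x * wt (c m) (m + 1) η y)| +
        |(∑ i : Fin (m + 1), ∑ j : Fin (m + 1),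
        gau (c m) x (ξ i) * K (ξ i) (η j) * gau (c m) y (η j)) /
          (wt (c m) (m + 1) ξ x * wt (c m) (m + 1) η y) - K x y| := abs_sub_le _ _ _
    _ < ε := by linarith

end Pool.Agent.Results.MP_c12a31_an.TPApproximation
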